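import Pool.Agent.H.MP_5ae901_lc.Fld
import Pool.Agent.Lib.helper26.Low

namespace Pool.Agent.H.MP_1308e3_lc

open Pool.Agent.Lib.PR Nat.Partrec Pool.Agent.H.MP_5ae901_lc Pool.Agent.Lib.helper26.Low
open Pool.Agent.H.MP_418eb4_lc (re_exi re_comp re_prim)
open Pool.Agent.Lib.helper21.Fn (Om tb tb_cd tb_prim)

attribute [local irreducible] Primrec Computable

/-- a field ordering, as a strict total order compatible with the operations -/
def IsOrd {F : Type} [Field F] (lt : F → F → Prop) : Prop :=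
  IsStrictTotalOrder F lt ∧ (∀ a b c, lt a b → lt (a + c) (b + c)) ∧
    ∀ a b, lt 0 a → lt 0 b → lt 0 (a * b)

/-- the order conditions on a triple, with the needed sums, product and zero -/
def C (X : Om) (a b c p q r z : ℕ) : Prop :=
  ¬ X (a.pair a) = true ∧ (X (a.pair b) = true → X (b.pair c) = true → X (a.pair c) = true) ∧
    (¬ X (a.pair b) = true → ¬ X (b.pair a) = true → a = b) ∧
    (X (a.pair b) = true → X (p.pair q) = true) ∧
    (X (z.pair a) = true → X (z.pair b) = true → X (z.pair r) = true)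

/-- the positions read by the order conditions -/
def B (s a b c p q r z : ℕ) : Prop :=
  a.pair a < s ∧ a.pair b < s ∧ b.pair c < s ∧ a.pair c < s ∧ b.pair a < s ∧ p.pair q < s ∧
    z.pair a < s ∧ z.pair b < s ∧ z.pair r < s

theorem C_congr {X Y : Om} {s a b c p q r z : ℕ} (h : ∀ i < s, X i = Y i)
    (hB : B s a b c p q r z) : C X a b c p q r z ↔ C Y a b c p q r z := by
  obtain ⟨h1, h2, h3, h4, h5, h6, h7, h8, h9⟩ := hB
  unfold C
  rw [h _ h1, h _ h2, h _ h3, h _ h4, h _ h5, h _ h6, h _ h7, h _ h8, h _ h9]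

@[fun_prop] theorem p_tb {α : Type} [Primcodable α] {f g : α → ℕ} (hf : Primrec f)
    (hg : Primrec g) : Primrec fun a => tb (f a) (g a) := tb_prim.comp hf hg

theorem low_ord {F : Type} [Field F] (e : ℕ ≃ F)
    (ha : Computable₂ (fun a b : ℕ => e.symm (e a + e b)))
    (hm : Computable₂ (fun a b : ℕ => e.symm (e a * e b))) (lt : F → F → Prop) (h : IsOrd lt) :
    ∃ lt : F → F → Prop, IsOrd lt ∧ IsLow {n | lt (e n.unpair.1) (e n.unpair.2)} := by
  classical
  let z := e.symm 0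
  let R : (ℕ × ℕ) × (ℕ × ℕ × ℕ) × ℕ × ℕ × ℕ → Prop := fun w =>
    B w.1.1 w.2.1.1 w.2.1.2.1 w.2.1.2.2 w.2.2.1 w.2.2.2.1 w.2.2.2.2 z ∧
      ¬ C (tb w.1.2) w.2.1.1 w.2.1.2.1 w.2.1.2.2 w.2.2.1 w.2.2.2.1 w.2.2.2.2 z
  have hR : REPred R := re_prim (by unfold R B C; fun_prop)
  have c1 : Computable fun w : (ℕ × ℕ) × ℕ × ℕ × ℕ => w.2.1 := c_prim (by fun_prop)
  have c2 : Computable fun w : (ℕ × ℕ) × ℕ × ℕ × ℕ => w.2.2.1 := c_prim (by fun_prop)
  have c3 : Computable fun w : (ℕ × ℕ) × ℕ × ℕ × ℕ => w.2.2.2 := c_prim (by fun_prop)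
  have hV := re_exi (re_comp hR (g := fun w : (ℕ × ℕ) × ℕ × ℕ × ℕ => (w.1, w.2,
    e.symm (e w.2.1 + e w.2.2.2), e.symm (e w.2.2.1 + e w.2.2.2), e.symm (e w.2.1 * e w.2.2.1)))
    (Computable.fst.pair (Computable.snd.pair ((ha.comp c1 c3).pair
      ((ha.comp c2 c3).pair (hm.comp c1 c2))))))
  have key : ∀ Z : Om, (∀ s, ¬ ∃ w : ℕ × ℕ × ℕ, R ((s, sg Z s), w, e.symm (e w.1 + e w.2.2),
      e.symm (e w.2.1 + e w.2.2), e.symm (e w.1 * e w.2.1))) ↔
      ∀ a b c, C Z a b c (e.symm (e a + e c)) (e.symm (e b + e c)) (e.symm (e a * e b)) z := by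
    intro Z
    constructor
    · intro H a b c
      by_contra k
      obtain ⟨s, hs⟩ : ∃ s, B s a b c (e.symm (e a + e c)) (e.symm (e b + e c))
          (e.symm (e a * e b)) z := by
        refine ⟨a.pair a + a.pair b + b.pair c + a.pair c + b.pair a +
          (e.symm (e a + e c)).pair (e.symm (e b + e c)) + z.pair a + z.pair b +
          z.pair (e.symm (e a * e b)) + 1, ?_⟩
        unfold B
        omega
      exact H s ⟨(a, b, c), hs, fun k2 => k ((C_congr (tb_cd Z s) hs).1 k2)⟩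
    · rintro H s ⟨⟨a, b, c⟩, hs, k⟩
      exact k ((C_congr (tb_cd Z s) hs).2 (H a b c))
  obtain ⟨Z, h1, h2⟩ := low_basis hV
    ⟨fun n => cd (lt (e n.unpair.1) (e n.unpair.2)), (key _).2 fun a b c => by
      obtain ⟨h1, h2, h3⟩ := h
      simp only [C, Nat.unpair_pair, cd_true, Equiv.apply_symm_apply, z]
      exact ⟨irrefl _, fun k1 k2 => _root_.trans k1 k2, fun k1 k2 =>
        e.injective (Std.Trichotomous.trichotomous _ _ k1 k2), h2 _ _ _, h3 _ _⟩⟩
  rw [key] at h1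
  refine ⟨fun x y => Z ((e.symm x).pair (e.symm y)) = true, ⟨?_, fun a b c => ?_, fun a b => ?_⟩,
    by simpa using h2⟩
  · exact
      { trichotomous := fun a b k1 k2 => e.symm.injective ((h1 _ _ 0).2.2.1 k1 k2)
        irrefl := fun a => (h1 _ 0 0).1
        trans := fun a b c => (h1 _ _ _).2.1 }
  · simpa using (h1 (e.symm a) (e.symm b) (e.symm c)).2.2.2.1
  · simpa using (h1 (e.symm a) (e.symm b) 0).2.2.2.2

variable {v : ℕ → ℂ} {x : ℝ}

theorem no_copy (h : Good v x) (lt : h.F → h.F → Prop) (hl : IsOrd lt) (D : Set ℕ) (g : ℕ → h.F)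
    (hg : Set.SurjOn g D Set.univ) (A M : ℕ → ℕ →. ℕ) (hA : Partrec₂ A) (hM : Partrec₂ M)
    (ha : ∀ a ∈ D, ∀ b ∈ D, ∃ c ∈ A a b, c ∈ D ∧ g c = g a + g b)
    (hm : ∀ a ∈ D, ∀ b ∈ D, ∃ c ∈ M a b, c ∈ D ∧ g c = g a * g b)
    (R : ℕ × ℕ → Prop) (hR : ComputablePred R)
    (hr : ∀ a ∈ D, ∀ b ∈ D, R (a, b) ↔ lt (g a) (g b)) : False := by
  classical
  obtain ⟨h0, h1, h2⟩ := hl
  have hadd : ∀ a b, lt 0 a → lt 0 b → lt 0 (a + b) := fun a b k1 k2 =>
    _root_.trans k2 (by simpa using h1 _ _ b k1)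
  have hsq : ∀ y : h.F, y ≠ 0 → lt 0 (y * y) := fun y hy => by
    rcases trichotomous_of lt 0 y with h4 | h4 | h4
    · exact h2 _ _ h4 h4
    · exact absurd h4.symm hy
    · have : lt 0 (-y) := by simpa using h1 _ _ (-y) h4
      simpa using h2 _ _ this this
  have hfr : ∀ j, ∀ y : h.F, (y : ℝ) = fr j x → lt 0 y := fun j y hy => by
    let a := h.nu ([(0, [j + 1])], one)
    let b := h.nu ([(3, [j + 1])], one)
    have hab : y = a * a + b * b := by
      apply Subtype.ext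
      have := h.circ j
      rw [Complex.mul_conj, Complex.ofReal_inj, Complex.normSq_apply] at this
      simp [a, b, Good.nu, fv, mv, hy, this]
    have hy0 : y ≠ 0 := fun h4 => (h.pos j).ne (by rw [← hy, h4]; rfl)
    by_cases ha0 : a = 0
    · rw [hab, ha0, mul_zero, zero_add] at hy0 ⊢
      exact hsq b fun h5 => hy0 (by rw [h5, mul_zero])
    by_cases hb0 : b = 0
    · rw [hab, hb0, mul_zero, add_zero]
      exact hsq a ha0
    rw [hab]
    exact hadd _ _ (hsq a ha0) (hsq b hb0)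
  obtain ⟨t, ht, ht2⟩ := hg (Set.mem_univ (h.nu ([(0, [0])], one)))
  obtain ⟨s, hs, hs2⟩ := hg (Set.mem_univ (-6))
  obtain ⟨z, hz, hz2⟩ := hg (Set.mem_univ 0)
  let u : ℕ →. ℕ := fun n => Nat.rec (Part.some t)
    (fun y IH => IH.bind fun a => (M a a).bind fun b => A b s) n
  have hu : Partrec u :=
    Partrec.nat_rec (f := fun n => n) (g := fun _ => Part.some t)
      (h := fun _ p => (M p.2 p.2).bind fun b => A b s) Computable.id (Computable.const t).partrec
      (Partrec.bind (hM.comp (Computable.snd.comp Computable.snd)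
        (Computable.snd.comp Computable.snd)) (hA.comp Computable.snd (.const s)).to₂).to₂
  have hu2 : ∀ n, ∃ a ∈ u n, a ∈ D ∧ (g a : ℝ) = qm^[n] x := fun n => by
    induction n with
    | zero => exact ⟨t, Part.mem_some t, ht, by simp [ht2, Good.nu, fv, mv, h.zero]⟩
    | succ n ih =>
      obtain ⟨a, k1, k2, k3⟩ := ih
      obtain ⟨b, k4, k5, k6⟩ := hm a k2 a k2
      obtain ⟨c, k7, k8, k9⟩ := ha b k5 s hs
      refine ⟨c, Part.mem_bind k1 (Part.mem_bind k4 k7), k8, ?_⟩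
      rw [Function.iterate_succ_apply', ← k3]
      have h6 : ((6 : h.F) : ℝ) = 6 := rfl
      simp [k9, k6, hs2, qm, h6, sub_eq_add_neg]
  have hG : Partrec fun n => (u (2 * n)).map fun a => cond (decide (R (z, a))) 1 0 :=
    Partrec.map (hu.comp (Primrec.nat_mul.comp (.const 2) .id).to_comp)
      (Computable.cond (hR.decide.comp ((Computable.const z).pair Computable.snd))
        (.const 1) (.const 0)).to₂
  obtain ⟨c, hc⟩ := Code.exists_code.1 (Partrec.nat_iff.1 hG)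
  let n := Encodable.encode c
  have hcn : Denumerable.ofNat Code n = c := Denumerable.ofNat_encode c
  obtain ⟨a, k1, k2, k3⟩ := hu2 (2 * n)
  obtain ⟨k, hk⟩ := Code.evaln_complete.1
    (show cond (decide (R (z, a))) 1 0 ∈ c.eval n by rw [hc]; exact Part.mem_map _ k1)
  have hev : Pool.Agent.H.MP_5ae901_lc.ev (Nat.pair n k) = some (cond (decide (R (z, a))) 1 0) := by
    simpa [Pool.Agent.H.MP_5ae901_lc.ev, hcn] using hk
  have k4 := hr z hz a k2
  rw [hz2] at k4
  by_cases hn : R (z, a)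
  · have := hfr (Nat.pair n k) (- g a) (by simp [fr, hev, hn, k3])
    exact irrefl_of lt 0 (by simpa using hadd _ _ (k4.1 hn) this)
  · exact hn (k4.2 (hfr (Nat.pair n k) _ (by simp [fr, hev, hn, k3])))

end Pool.Agent.H.MP_1308e3_lc
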